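import Mathlib
import Pool.Agent.R34.Main
import Pool.Agent.R34.PlanarCycles

/-!
Attaching a pendant vertex need not raise the treewidth threshold `f`.

For a planar graph `H`, `f(H)` is the least integer such that every graph of treewidth at least
`f(H)` has `H` as a minor. We show that the rule `f(H') = f(H) + 1` for adding a pendant vertex is
false: for every `s ≥ 10 ^ 6` there is an `m` such that the planar graph `H` which consists of `s`
disjoint cycles of length four and `m` isolated vertices satisfies `f(H) = |V(H)| = 4 * s + m`, and
attaching a pendant vertex to any vertex of any of the cycles gives a graph `H'` with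
`f(H') = f(H)`.
-/

set_option autoImplicit false

namespace Pool.Agent.Results.MP_420e77_co.PendantThreshold

open Pool.Agent.R34 Pool.Agent.TH507.Host

theorem result (s : ℕ) (hs : 1000000 ≤ s) :
    ∃ m : ℕ, Planar (cycles s m) ∧ Threshold (cycles s m) (4 * s + m) ∧
      ∀ (i : Fin s) (a : Fin 4),
        Threshold (addPendant (cycles s m) (Sum.inl (i, a))) (4 * s + m) := by
  obtain ⟨m, h1, h2⟩ := exists_m s hs
  have h3 : ∀ (i : Fin s) (a : Fin 4),
      Threshold (addPendant (cycles s m) (Sum.inl (i, a))) (4 * s + m) := fun i a =>
    threshold_of (by omega) (forces_pendant (by omega) h1 i a) h2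
      (fun j hj V _ G hG => by
        classical
        exact minor_of_pendant (hj V G hG))
  refine ⟨m, planar_cycles s m, ?_, h3⟩
  refine threshold_of (by omega) ?_ h2 (fun _ hj => hj)
  intro V _ G hG
  classical
  exact minor_of_pendant ((h3 ⟨0, by omega⟩ 0).1 V G hG)

end Pool.Agent.Results.MP_420e77_co.PendantThreshold
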